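import Mathlib

set_option autoImplicit false

namespace Pool.Agent.H.MP_675cf2_al

def one0 (i j : Fin 4) (r : Fin 2) : Bool := (i.1, j.1, r.1) ∈ [(0, 0, 0), (0, 1, 1), (0, 3, 0), (1, 0, 1), (1, 1, 1), (2, 1, 0), (3, 2, 1)]

def nu0 (i j : Fin 4) (r : Fin 2) : ℂ := if one0 i j r then 1 else 0

def Eqn (ν : Fin 4 → Fin 4 → Fin 2 → ℂ) (β : Fin 4 → Fin 4 → Fin 4 → ℂ)
    (ρ : Fin 4 → Fin 2 → Fin 2 → ℂ) (u v w : Fin 4) (r : Fin 2) : ℂ :=
  ∑ l, β v w l * ν u l r + ∑ t, ν v w t * ρ u t r - (∑ l, β u v l * ν l w r +
    (∑ l, β u w l * ν v l r + ∑ t, ν u w t * ρ v t r))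

theorem n000 : nu0 0 0 0 = 1 := if_pos (by decide)
theorem n001 : nu0 0 0 1 = 0 := if_neg (by decide)
theorem n010 : nu0 0 1 0 = 0 := if_neg (by decide)
theorem n011 : nu0 0 1 1 = 1 := if_pos (by decide)
theorem n020 : nu0 0 2 0 = 0 := if_neg (by decide)
theorem n021 : nu0 0 2 1 = 0 := if_neg (by decide)
theorem n030 : nu0 0 3 0 = 1 := if_pos (by decide)
theorem n031 : nu0 0 3 1 = 0 := if_neg (by decide)
theorem n100 : nu0 1 0 0 = 0 := if_neg (by decide)
theorem n101 : nu0 1 0 1 = 1 := if_pos (by decide)
theorem n110 : nu0 1 1 0 = 0 := if_neg (by decide)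
theorem n111 : nu0 1 1 1 = 1 := if_pos (by decide)
theorem n120 : nu0 1 2 0 = 0 := if_neg (by decide)
theorem n121 : nu0 1 2 1 = 0 := if_neg (by decide)
theorem n130 : nu0 1 3 0 = 0 := if_neg (by decide)
theorem n131 : nu0 1 3 1 = 0 := if_neg (by decide)
theorem n200 : nu0 2 0 0 = 0 := if_neg (by decide)
theorem n201 : nu0 2 0 1 = 0 := if_neg (by decide)
theorem n210 : nu0 2 1 0 = 1 := if_pos (by decide)
theorem n211 : nu0 2 1 1 = 0 := if_neg (by decide)
theorem n220 : nu0 2 2 0 = 0 := if_neg (by decide)
theorem n221 : nu0 2 2 1 = 0 := if_neg (by decide)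
theorem n230 : nu0 2 3 0 = 0 := if_neg (by decide)
theorem n231 : nu0 2 3 1 = 0 := if_neg (by decide)
theorem n300 : nu0 3 0 0 = 0 := if_neg (by decide)
theorem n301 : nu0 3 0 1 = 0 := if_neg (by decide)
theorem n310 : nu0 3 1 0 = 0 := if_neg (by decide)
theorem n311 : nu0 3 1 1 = 0 := if_neg (by decide)
theorem n320 : nu0 3 2 0 = 0 := if_neg (by decide)
theorem n321 : nu0 3 2 1 = 1 := if_pos (by decide)
theorem n330 : nu0 3 3 0 = 0 := if_neg (by decide)
theorem n331 : nu0 3 3 1 = 0 := if_neg (by decide)

theorem inj0 {β : Fin 4 → Fin 4 → Fin 4 → ℂ} {ρ : Fin 4 → Fin 2 → Fin 2 → ℂ}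
    (H : ∀ u v w r, Eqn nu0 β ρ u v w r = 0) : β = 0 ∧ ρ = 0 := by
  simp only [Eqn, Fin.sum_univ_four, Fin.sum_univ_two] at H
  have h0000 := H 0 0 0 0
  simp only [n000, n001, n010, n020, n030, n100, n200, n300] at h0000
  have h0001 := H 0 0 0 1
  simp only [n000, n001, n011, n021, n031, n101, n201, n301] at h0001
  have h0010 := H 0 0 1 0
  simp only [n000, n010, n011, n020, n030, n110, n210, n310] at h0010
  have h0021 := H 0 0 2 1
  simp only [n001, n011, n020, n021, n031, n121, n221, n321] at h0021
  have h0100 := H 0 1 0 0
  simp only [n000, n001, n010, n020, n030, n100, n101, n110, n120, n130, n200, n300] at h0100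
  have h0101 := H 0 1 0 1
  simp only [n000, n001, n011, n021, n031, n100, n101, n111, n121, n131, n201, n301] at h0101
  have h0110 := H 0 1 1 0
  simp only [n000, n010, n011, n020, n030, n100, n110, n111, n120, n130, n210, n310] at h0110
  have h0111 := H 0 1 1 1
  simp only [n001, n010, n011, n021, n031, n101, n110, n111, n121, n131, n211, n311] at h0111
  have h0120 := H 0 1 2 0
  simp only [n000, n010, n020, n021, n030, n100, n110, n120, n121, n130, n220, n320] at h0120
  have h0121 := H 0 1 2 1
  simp only [n001, n011, n020, n021, n031, n101, n111, n120, n121, n131, n221, n321] at h0121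
  have h0130 := H 0 1 3 0
  simp only [n000, n010, n020, n030, n031, n100, n110, n120, n130, n131, n230, n330] at h0130
  have h0131 := H 0 1 3 1
  simp only [n001, n011, n021, n030, n031, n101, n111, n121, n130, n131, n231, n331] at h0131
  have h0200 := H 0 2 0 0
  simp only [n000, n001, n010, n020, n030, n100, n200, n201, n210, n220, n230, n300] at h0200
  have h0201 := H 0 2 0 1
  simp only [n000, n001, n011, n021, n031, n101, n200, n201, n211, n221, n231, n301] at h0201
  have h0210 := H 0 2 1 0
  simp only [n000, n010, n011, n020, n030, n110, n200, n210, n211, n220, n230, n310] at h0210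
  have h0211 := H 0 2 1 1
  simp only [n001, n010, n011, n021, n031, n111, n201, n210, n211, n221, n231, n311] at h0211
  have h0220 := H 0 2 2 0
  simp only [n000, n010, n020, n021, n030, n120, n200, n210, n220, n221, n230, n320] at h0220
  have h0221 := H 0 2 2 1
  simp only [n001, n011, n020, n021, n031, n121, n201, n211, n220, n221, n231, n321] at h0221
  have h0231 := H 0 2 3 1
  simp only [n001, n011, n021, n030, n031, n131, n201, n211, n221, n230, n231, n331] at h0231
  have h0300 := H 0 3 0 0
  simp only [n000, n001, n010, n020, n030, n100, n200, n300, n301, n310, n320, n330] at h0300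
  have h0301 := H 0 3 0 1
  simp only [n000, n001, n011, n021, n031, n101, n201, n300, n301, n311, n321, n331] at h0301
  have h0310 := H 0 3 1 0
  simp only [n000, n010, n011, n020, n030, n110, n210, n300, n310, n311, n320, n330] at h0310
  have h0311 := H 0 3 1 1
  simp only [n001, n010, n011, n021, n031, n111, n211, n301, n310, n311, n321, n331] at h0311
  have h0320 := H 0 3 2 0
  simp only [n000, n010, n020, n021, n030, n120, n220, n300, n310, n320, n321, n330] at h0320
  have h0321 := H 0 3 2 1
  simp only [n001, n011, n020, n021, n031, n121, n221, n301, n311, n320, n321, n331] at h0321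
  have h0330 := H 0 3 3 0
  simp only [n000, n010, n020, n030, n031, n130, n230, n300, n310, n320, n330, n331] at h0330
  have h0331 := H 0 3 3 1
  simp only [n001, n011, n021, n030, n031, n131, n231, n301, n311, n321, n330, n331] at h0331
  have h1011 := H 1 0 1 1
  simp only [n001, n010, n011, n021, n031, n101, n110, n111, n121, n131, n211, n311] at h1011
  have h1021 := H 1 0 2 1
  simp only [n001, n011, n020, n021, n031, n101, n111, n120, n121, n131, n221, n321] at h1021
  have h1030 := H 1 0 3 0
  simp only [n000, n010, n020, n030, n031, n100, n110, n120, n130, n131, n230, n330] at h1030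
  have h1100 := H 1 1 0 0
  simp only [n000, n100, n101, n110, n120, n130, n200, n300] at h1100
  have h1101 := H 1 1 0 1
  simp only [n001, n100, n101, n111, n121, n131, n201, n301] at h1101
  have h1110 := H 1 1 1 0
  simp only [n010, n100, n110, n111, n120, n130, n210, n310] at h1110
  have h1121 := H 1 1 2 1
  simp only [n021, n101, n111, n120, n121, n131, n221, n321] at h1121
  have h1200 := H 1 2 0 0
  simp only [n000, n100, n101, n110, n120, n130, n200, n201, n210, n220, n230, n300] at h1200
  have h1201 := H 1 2 0 1
  simp only [n001, n100, n101, n111, n121, n131, n200, n201, n211, n221, n231, n301] at h1201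
  have h1210 := H 1 2 1 0
  simp only [n010, n100, n110, n111, n120, n130, n200, n210, n211, n220, n230, n310] at h1210
  have h1211 := H 1 2 1 1
  simp only [n011, n101, n110, n111, n121, n131, n201, n210, n211, n221, n231, n311] at h1211
  have h1220 := H 1 2 2 0
  simp only [n020, n100, n110, n120, n121, n130, n200, n210, n220, n221, n230, n320] at h1220
  have h1221 := H 1 2 2 1
  simp only [n021, n101, n111, n120, n121, n131, n201, n211, n220, n221, n231, n321] at h1221
  have h1230 := H 1 2 3 0
  simp only [n030, n100, n110, n120, n130, n131, n200, n210, n220, n230, n231, n330] at h1230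
  have h1231 := H 1 2 3 1
  simp only [n031, n101, n111, n121, n130, n131, n201, n211, n221, n230, n231, n331] at h1231
  have h1300 := H 1 3 0 0
  simp only [n000, n100, n101, n110, n120, n130, n200, n300, n301, n310, n320, n330] at h1300
  have h1301 := H 1 3 0 1
  simp only [n001, n100, n101, n111, n121, n131, n201, n300, n301, n311, n321, n331] at h1301
  have h1311 := H 1 3 1 1
  simp only [n011, n101, n110, n111, n121, n131, n211, n301, n310, n311, n321, n331] at h1311
  have h1320 := H 1 3 2 0
  simp only [n020, n100, n110, n120, n121, n130, n220, n300, n310, n320, n321, n330] at h1320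
  have h1321 := H 1 3 2 1
  simp only [n021, n101, n111, n120, n121, n131, n221, n301, n311, n320, n321, n331] at h1321
  have h1330 := H 1 3 3 0
  simp only [n030, n100, n110, n120, n130, n131, n230, n300, n310, n320, n330, n331] at h1330
  have h1331 := H 1 3 3 1
  simp only [n031, n101, n111, n121, n130, n131, n231, n301, n311, n321, n330, n331] at h1331
  have h2010 := H 2 0 1 0
  simp only [n000, n010, n011, n020, n030, n110, n200, n210, n211, n220, n230, n310] at h2010
  have h2021 := H 2 0 2 1
  simp only [n001, n011, n020, n021, n031, n121, n201, n211, n220, n221, n231, n321] at h2021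
  have h2110 := H 2 1 1 0
  simp only [n010, n100, n110, n111, n120, n130, n200, n210, n211, n220, n230, n310] at h2110
  have h2121 := H 2 1 2 1
  simp only [n021, n101, n111, n120, n121, n131, n201, n211, n220, n221, n231, n321] at h2121
  have h2130 := H 2 1 3 0
  simp only [n030, n100, n110, n120, n130, n131, n200, n210, n220, n230, n231, n330] at h2130
  have h2200 := H 2 2 0 0
  simp only [n000, n100, n200, n201, n210, n220, n230, n300] at h2200
  have h2201 := H 2 2 0 1
  simp only [n001, n101, n200, n201, n211, n221, n231, n301] at h2201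
  have h2210 := H 2 2 1 0
  simp only [n010, n110, n200, n210, n211, n220, n230, n310] at h2210
  have h2221 := H 2 2 2 1
  simp only [n021, n121, n201, n211, n220, n221, n231, n321] at h2221
  have h2300 := H 2 3 0 0
  simp only [n000, n100, n200, n201, n210, n220, n230, n300, n301, n310, n320, n330] at h2300
  have h2301 := H 2 3 0 1
  simp only [n001, n101, n200, n201, n211, n221, n231, n300, n301, n311, n321, n331] at h2301
  have h2310 := H 2 3 1 0
  simp only [n010, n110, n200, n210, n211, n220, n230, n300, n310, n311, n320, n330] at h2310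
  have h2311 := H 2 3 1 1
  simp only [n011, n111, n201, n210, n211, n221, n231, n301, n310, n311, n321, n331] at h2311
  have h2320 := H 2 3 2 0
  simp only [n020, n120, n200, n210, n220, n221, n230, n300, n310, n320, n321, n330] at h2320
  have h2321 := H 2 3 2 1
  simp only [n021, n121, n201, n211, n220, n221, n231, n301, n311, n320, n321, n331] at h2321
  have h2330 := H 2 3 3 0
  simp only [n030, n130, n200, n210, n220, n230, n231, n300, n310, n320, n330, n331] at h2330
  have h2331 := H 2 3 3 1
  simp only [n031, n131, n201, n211, n221, n230, n231, n301, n311, n321, n330, n331] at h2331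
  have h3001 := H 3 0 0 1
  simp only [n000, n001, n011, n021, n031, n101, n201, n300, n301, n311, n321, n331] at h3001
  have h3010 := H 3 0 1 0
  simp only [n000, n010, n011, n020, n030, n110, n210, n300, n310, n311, n320, n330] at h3010
  have h3021 := H 3 0 2 1
  simp only [n001, n011, n020, n021, n031, n121, n221, n301, n311, n320, n321, n331] at h3021
  have h3110 := H 3 1 1 0
  simp only [n010, n100, n110, n111, n120, n130, n210, n300, n310, n311, n320, n330] at h3110
  have h3121 := H 3 1 2 1
  simp only [n021, n101, n111, n120, n121, n131, n221, n301, n311, n320, n321, n331] at h3121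
  have h3130 := H 3 1 3 0
  simp only [n030, n100, n110, n120, n130, n131, n230, n300, n310, n320, n330, n331] at h3130
  have h3201 := H 3 2 0 1
  simp only [n001, n101, n200, n201, n211, n221, n231, n300, n301, n311, n321, n331] at h3201
  have h3210 := H 3 2 1 0
  simp only [n010, n110, n200, n210, n211, n220, n230, n300, n310, n311, n320, n330] at h3210
  have h3221 := H 3 2 2 1
  simp only [n021, n121, n201, n211, n220, n221, n231, n301, n311, n320, n321, n331] at h3221
  have h3230 := H 3 2 3 0
  simp only [n030, n130, n200, n210, n220, n230, n231, n300, n310, n320, n330, n331] at h3230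
  have h3300 := H 3 3 0 0
  simp only [n000, n100, n200, n300, n301, n310, n320, n330] at h3300
  have h3301 := H 3 3 0 1
  simp only [n001, n101, n201, n300, n301, n311, n321, n331] at h3301
  have h3310 := H 3 3 1 0
  simp only [n010, n110, n210, n300, n310, n311, n320, n330] at h3310
  have h3321 := H 3 3 2 1
  simp only [n021, n121, n221, n301, n311, n320, n321, n331] at h3321
  clear H
  have b000 : β 0 0 0 = 0 := by linear_combination (-1) * h0000
  have b001 : β 0 0 1 = 0 := by linear_combination (-1) * h0001
  have b002 : β 0 0 2 = 0 := by linear_combination (-1) * h0010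
  have b003 : β 0 0 3 = 0 := by linear_combination (-1) * h0021
  have b110 : β 1 1 0 = 0 := by linear_combination (-1) * h1100
  have b111 : β 1 1 1 = 0 := by linear_combination (-1) * h1101
  have b112 : β 1 1 2 = 0 := by linear_combination (-1) * h1110
  have b113 : β 1 1 3 = 0 := by linear_combination (-1) * h1121
  have b121 : β 1 2 1 = 0 := by linear_combination (-1) * h1220
  have r110 : ρ 1 1 0 = 0 := by linear_combination (1) * h1320
  have b130 : β 1 3 0 = 0 := by linear_combination (-1) * h1330
  have b220 : β 2 2 0 = 0 := by linear_combination (-1) * h2200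
  have b221 : β 2 2 1 = 0 := by linear_combination (-1) * h2201
  have b222 : β 2 2 2 = 0 := by linear_combination (-1) * h2210
  have b223 : β 2 2 3 = 0 := by linear_combination (-1) * h2221
  have b232 : β 2 3 2 = 0 := by linear_combination (-1) * h2331
  have b310 : β 3 1 0 = 0 := by linear_combination (-1) * h3130
  have b330 : β 3 3 0 = 0 := by linear_combination (-1) * h3300
  have b331 : β 3 3 1 = 0 := by linear_combination (-1) * h3301
  have b332 : β 3 3 2 = 0 := by linear_combination (-1) * h3310
  have b333 : β 3 3 3 = 0 := by linear_combination (-1) * h3321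
  have b021 : β 0 2 1 = 0 := by linear_combination (-1) * h0220 + (1) * b220 + (1) * b223
  have b023 : β 0 2 3 = 0 := by linear_combination (-1) * h0221 + (1) * b221
  have b123 : β 1 2 3 = 0 := by linear_combination (-1) * h1221 + (1) * b220 + (1) * b221
  have r310 : ρ 3 1 0 = 0 := by linear_combination (-1) * h1300 + (-1) * b130
  have b132 : β 1 3 2 = 0 := by linear_combination (-1) * h1331 + (1) * b330 + (1) * b331
  have b203 : β 2 0 3 = 0 := by linear_combination (-1) * h2021 + (-1) * b221
  have b213 : β 2 1 3 = 0 := by linear_combination (-1) * h2121 + (-1) * b220 + (-1) * b221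
  have b230 : β 2 3 0 = 0 := by linear_combination (-1) * h2330 + (1) * b331
  have b320 : β 3 2 0 = 0 := by linear_combination (-1) * h3230 + (-1) * b331
  have b120 : β 1 2 0 = 0 := by linear_combination (1) * h0120 + (-1) * b123
  have b231 : β 2 3 1 = 0 := by linear_combination (1) * h1231 + (-1) * b230
  have b301 : β 3 0 1 = 0 := by linear_combination (1) * h2300 + (1) * b230
  have b312 : β 3 1 2 = 0 := by linear_combination (-1) * h3110 + (1) * r310
  have r201 : ρ 2 0 1 = 0 := by linear_combination (-1) * h0231 + (1) * b231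
  have b131 : β 1 3 1 = 0 := by linear_combination (-1) * h1230 + (-1) * b120
  have b202 : β 2 0 2 = 0 := by linear_combination (-1) * h2301 + (-1) * b231
  have r301 : ρ 3 0 1 = 0 := by linear_combination (1) * h3001 + (2) * b301 + (-1) * b002
  have b201 : β 2 0 1 = 0 := by linear_combination (1) * h0201 + (1) * b021 + (1) * r201
  have b031 : β 0 3 1 = 0 := by linear_combination (-1) * h0301 + (1) * b301 + (-1) * b002 + (-1) * r301
  have b032 : β 0 3 2 = 0 := by linear_combination (-1) * h0331 + (1) * b331 + (-1) * r301
  have b210 : β 2 1 0 = 0 := by linear_combination (-1) * h2130 + (1) * b131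
  have b212 : β 2 1 2 = 0 := by linear_combination (-1) * h2311 + (-1) * b230 + (-1) * b231 + (-1) * r301
  have b321 : β 3 2 1 = 0 := by linear_combination (-1) * h3201 + (1) * b202
  have b313 : β 3 1 3 = 0 := by linear_combination (1) * h0310 + (-1) * b310 + (1) * b032 + (1) * r310
  have r210 : ρ 2 1 0 = 0 := by linear_combination (1) * h2320 + (-1) * b321
  have b101 : β 1 0 1 = 0 := by linear_combination (-1) * h1200 + (-1) * b120 + (-1) * r210
  have r100 : ρ 1 0 0 = 0 := by linear_combination (-1) * h2110 + (1) * b111 + (-1) * b212 + (1) * r210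
  have b302 : β 3 0 2 = 0 := by linear_combination (-1) * h3010 + (-1) * b310 + (-1) * b313 + (1) * r310
  have b122 : β 1 2 2 = 0 := by linear_combination (-1) * h1210 + (-1) * b111 + (1) * r100 + (-1) * r210
  have r111 : ρ 1 1 1 = 0 := by linear_combination (-1) * h3121 + (-1) * b320 + (-1) * b321 + (1) * b122 + (-1) * b313
  have b133 : β 1 3 3 = 0 := by linear_combination (-1) * h1321 + (1) * b320 + (1) * b321 + (-1) * b122 + (1) * r111
  have b010 : β 0 1 0 = 0 := by linear_combination (-1) * h0130 + (1) * b130 + (1) * b133 + (-1) * r100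
  have b100 : β 1 0 0 = 0 := by linear_combination (-1) * h1030 + (-1) * b130 + (-1) * b133 + (1) * r100
  have b011 : β 0 1 1 = 0 := by linear_combination (-1) * h0111 + (-1) * h1011 + (-1) * b010 + (-1) * b100 + (-1) * b101
  have r011 : ρ 0 1 1 = 0 := by linear_combination (1) * h0111 + (2) * b010 + (-1) * b111 + (2) * b011 + (1) * r111
  have r000 : ρ 0 0 0 = 0 := by linear_combination (-1) * h2010 + (-1) * b210 + (1) * b011 + (-1) * b202 + (-1) * b213 + (1) * r210
  have r101 : ρ 1 0 1 = 0 := by linear_combination (-1) * h0101 + (-1) * b000 + (1) * b101 + (-1) * b011 + (-1) * b001 + (1) * r011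
  have b022 : β 0 2 2 = 0 := by linear_combination (-1) * h0210 + (1) * b210 + (-1) * b011 + (1) * b213 + (1) * r000 + (-1) * r210
  have b030 : β 0 3 0 = 0 := by linear_combination (-1) * h0131 + (1) * b131 + (-1) * b031 + (-1) * r101
  have b033 : β 0 3 3 = 0 := by linear_combination (-1) * h0321 + (1) * b321 + (-1) * b022 + (1) * r011
  have b303 : β 3 0 3 = 0 := by linear_combination (-1) * h3021 + (-1) * b321 + (1) * b022 + (-1) * r011
  have r300 : ρ 3 0 0 = 0 := by linear_combination (-1) * h0330 + (1) * b330 + (-1) * b030 + (1) * b333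
  have b300 : β 3 0 0 = 0 := by linear_combination (1) * h0300 + (1) * b030 + (-1) * b303 + (1) * r300
  have b311 : β 3 1 1 = 0 := by linear_combination (1) * h2310 + (1) * b232 + (1) * r300
  have r311 : ρ 3 1 1 = 0 := by linear_combination (-1) * h1311 + (1) * b310 + (-1) * b130 + (1) * b311 + (-1) * b131 + (-1) * b112
  have b322 : β 3 2 2 = 0 := by linear_combination (-1) * h3210 + (-1) * b311 + (1) * r300
  have b012 : β 0 1 2 = 0 := by linear_combination (-1) * h0311 + (-1) * b030 + (1) * b311 + (-1) * b031 + (-1) * r311
  have b102 : β 1 0 2 = 0 := by linear_combination (-1) * h1301 + (1) * b300 + (1) * b301 + (-1) * b131 + (-1) * r311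
  have r010 : ρ 0 1 0 = 0 := by linear_combination (1) * h0110 + (-1) * b110 + (1) * b012 + (-1) * b113 + (1) * r110
  have b103 : β 1 0 3 = 0 := by linear_combination (1) * h0100 + (-1) * b100 + (1) * b010 + (1) * r100 + (-1) * r010
  have b323 : β 3 2 3 = 0 := by linear_combination (1) * h0320 + (-1) * b320 + (-1) * r010
  have b020 : β 0 2 0 = 0 := by linear_combination (1) * h1021 + (-1) * b021 + (1) * b121 + (1) * b103
  have r211 : ρ 2 1 1 = 0 := by linear_combination (-1) * h3221 + (1) * b222 + (-1) * b323
  have b013 : β 0 1 3 = 0 := by linear_combination (-1) * h0121 + (-1) * b020 + (1) * b121 + (-1) * b021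
  have b200 : β 2 0 0 = 0 := by linear_combination (1) * h1201 + (-1) * b201 + (1) * b121 + (1) * r211
  have b211 : β 2 1 1 = 0 := by linear_combination (1) * h1211 + (-1) * b210 + (1) * b120 + (1) * b121 + (-1) * r101 + (1) * r211
  have b233 : β 2 3 3 = 0 := by linear_combination (-1) * h2321 + (-1) * b222 + (1) * r211
  have r200 : ρ 2 0 0 = 0 := by linear_combination (-1) * h0200 + (1) * b200 + (-1) * b020 + (-1) * b001 + (1) * b203
  have r001 : ρ 0 0 1 = 0 := by linear_combination (1) * h0211 + (1) * b020 + (-1) * b211 + (1) * b021 + (1) * r211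
  constructor
  · funext i j l
    fin_cases i <;> fin_cases j <;> fin_cases l <;> assumption
  · funext i j l
    fin_cases i <;> fin_cases j <;> fin_cases l <;> assumption

end Pool.Agent.H.MP_675cf2_al
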