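import Pool.Agent.H.MP_675cf2_al.A

set_option autoImplicit false

namespace Pool.Agent.H.MP_675cf2_al
open Matrix

section
variable {σ : Type}

def Po (f : (σ → ℂ) → ℂ) : Prop := ∃ p : MvPolynomial σ ℂ, ∀ c, MvPolynomial.eval c p = f c

theorem Po.coord (i : σ) : Po fun c => c i := ⟨MvPolynomial.X i, by simp⟩
theorem Po.const (a : ℂ) : Po fun _ : σ → ℂ => a := ⟨MvPolynomial.C a, by simp⟩
theorem Po.add {f g : (σ → ℂ) → ℂ} (h : Po f) (h' : Po g) : Po fun c => f c + g c := by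
  obtain ⟨p, hp⟩ := h
  obtain ⟨q, hq⟩ := h'
  exact ⟨p + q, by simp [hp, hq]⟩
theorem Po.sub {f g : (σ → ℂ) → ℂ} (h : Po f) (h' : Po g) : Po fun c => f c - g c := by
  obtain ⟨p, hp⟩ := h
  obtain ⟨q, hq⟩ := h'
  exact ⟨p - q, by simp [hp, hq]⟩
theorem Po.mul {f g : (σ → ℂ) → ℂ} (h : Po f) (h' : Po g) : Po fun c => f c * g c := by
  obtain ⟨p, hp⟩ := h
  obtain ⟨q, hq⟩ := h'
  exact ⟨p * q, by simp [hp, hq]⟩
theorem Po.sum {ι : Type} [Fintype ι] {f : ι → (σ → ℂ) → ℂ} (h : ∀ i, Po (f i)) :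
    Po fun c => ∑ i, f i c := by
  choose p hp using h
  exact ⟨∑ i, p i, by simp [hp]⟩
theorem Po.det {ι : Type} [Fintype ι] [DecidableEq ι] {M : (σ → ℂ) → Matrix ι ι ℂ}
    (h : ∀ i j, Po fun c => M c i j) : Po fun c => (M c).det := by
  choose p hp using h
  refine ⟨(Matrix.of p).det, fun c => ?_⟩
  rw [RingHom.map_det]
  congr 1
  ext i j
  exact hp i j c

open ComplexOrder in
theorem gen_inj {ι κ : Type} [Fintype ι] [DecidableEq ι] [Fintype κ]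
    (T : (σ → ℂ) → (ι → ℂ) →ₗ[ℂ] (κ → ℂ)) (hT : ∀ x k, Po fun c => T c x k) (c0 : σ → ℂ)
    (h0 : ∀ x, T c0 x = 0 → x = 0) :
    ∃ D, Po D ∧ D c0 ≠ 0 ∧ ∀ c, D c ≠ 0 → ∀ x, T c x = 0 → x = 0 := by
  refine ⟨fun c => ((LinearMap.toMatrix' (T c0))ᴴ * LinearMap.toMatrix' (T c)).det,
    Po.det fun i j => Po.sum fun k => (Po.const _).mul (hT _ k), fun h => ?_, fun c h x hx => ?_⟩
  · obtain ⟨v, hv, e⟩ := Matrix.exists_mulVec_eq_zero_iff.2 h
    rw [conjTranspose_mul_self_mulVec_eq_zero, LinearMap.toMatrix'_mulVec] at e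
    exact hv (h0 v e)
  · by_contra hx'
    exact h (Matrix.exists_mulVec_eq_zero_iff.1 ⟨x, hx', by
      rw [← mulVec_mulVec, LinearMap.toMatrix'_mulVec, hx, mulVec_zero]⟩)

def Cl (Z : Set (σ → ℂ)) : Prop :=
  ∃ S : Set (MvPolynomial σ ℂ), Z = {c | ∀ p ∈ S, MvPolynomial.eval c p = 0}

def Irr (Z : Set (σ → ℂ)) : Prop :=
  Cl Z ∧ Z.Nonempty ∧ ∀ A B, Cl A → Cl B → Z ⊆ A ∪ B → (Z ⊆ A ∨ Z ⊆ B)

theorem cl_of {ι : Type} (f : ι → (σ → ℂ) → ℂ) (h : ∀ i, Po (f i)) : Cl {c | ∀ i, f i c = 0} := by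
  choose p hp using h
  exact ⟨Set.range p, by ext c; simp [hp]⟩

theorem comp {L : Set (σ → ℂ)} (hL : Cl L) {c0 : σ → ℂ} (h0 : c0 ∈ L) :
    ∃ Z, Irr Z ∧ c0 ∈ Z ∧ Z ⊆ L ∧ ∀ Z', Irr Z' → Z ⊆ Z' → Z' ⊆ L → Z' = Z := by
  obtain ⟨Z, h1, h2⟩ := zorn_subset_nonempty {Z | Irr Z ∧ Z ⊆ L} (fun C hC hch ⟨Z0, hZ0⟩ => by
    have sub : ∀ s ∈ C, s ⊆ {c | ∀ p ∈ {p : MvPolynomial σ ℂ | ∀ c ∈ ⋃₀ C,
        MvPolynomial.eval c p = 0}, MvPolynomial.eval c p = 0} :=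
      fun s hs c hc p hp => hp c ⟨s, hs, hc⟩
    have mn : ∀ A, Cl A → (∀ s ∈ C, s ⊆ A) → {c | ∀ p ∈ {p : MvPolynomial σ ℂ | ∀ c ∈ ⋃₀ C,
        MvPolynomial.eval c p = 0}, MvPolynomial.eval c p = 0} ⊆ A := by
      rintro _ ⟨S, rfl⟩ h c hc p hp
      exact hc p fun c' ⟨s, hs, hc'⟩ => h s hs hc' p hp
    refine ⟨_, ⟨⟨⟨_, rfl⟩, (hC hZ0).1.2.1.mono (sub _ hZ0), fun A B hA hB h => ?_⟩,
      mn L hL fun s hs => (hC hs).2⟩, sub⟩
    by_cases h1 : ∀ s ∈ C, s ⊆ A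
    · exact Or.inl (mn A hA h1)
    · push Not at h1
      obtain ⟨s, hs, h1⟩ := h1
      refine Or.inr (mn B hB fun t ht => ?_)
      rcases hch.total hs ht with h2 | h2
      · exact ((hC ht).1.2.2 A B hA hB ((sub t ht).trans h)).resolve_left fun h3 => h1 (h2.trans h3)
      · exact h2.trans (((hC hs).1.2.2 A B hA hB ((sub s hs).trans h)).resolve_left h1)) {c0}
    ⟨⟨by
      have := cl_of (fun i (c : σ → ℂ) => c i - c0 i) fun i => (Po.coord i).sub (Po.const _)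
      rwa [show {c : σ → ℂ | ∀ i, c i - c0 i = 0} = {c0} by
        ext c; simp [sub_eq_zero, funext_iff]] at this, Set.singleton_nonempty _,
      fun A B _ _ h => by simpa using h⟩, Set.singleton_subset_iff.2 h0⟩
  exact ⟨Z, h2.1.1, h1 rfl, h2.1.2, fun Z' a b c => (h2.eq_of_le ⟨a, c⟩ b).symm⟩

end

theorem core {A : Type} [AddCommGroup A] [Module ℂ A] (m : A →ₗ[ℂ] A →ₗ[ℂ] A)
    (hm : ∀ u v w, m u (m v w) = m (m u v) w + m v (m u w)) (e : Fin 4 → A) (s : Fin 2 → A)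
    (hs : ∀ t x, m (s t) x = 0) (p : A →ₗ[ℂ] (Fin 4 → ℂ)) (q : A →ₗ[ℂ] (Fin 2 → ℂ)) {Δ : ℂ}
    (hΔ : Δ ≠ 0) (dec : ∀ x, Δ • x = ∑ l, p x l • e l + ∑ t, q x t • s t)
    (inj : ∀ β ρ, (∀ u v w r, Eqn (fun i j => q (m (e i) (e j))) β ρ u v w r = 0) →
      β = 0 ∧ ρ = 0) (x y z : A) : m z (m x y) = 0 ∧ m (m x y) z = 0 := by
  have key : ∀ u v w, ∑ l, p (m (e v) (e w)) l • m (e u) (e l) +
      ∑ t, q (m (e v) (e w)) t • m (e u) (s t) = ∑ l, p (m (e u) (e v)) l • m (e l) (e w) +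
      (∑ l, p (m (e u) (e w)) l • m (e v) (e l) + ∑ t, q (m (e u) (e w)) t • m (e v) (s t)) := by
    intro u v w
    have h1 := congrArg (Δ • ·) (hm (e u) (e v) (e w))
    simp only [smul_add] at h1
    rw [← map_smul, dec, ← LinearMap.smul_apply, ← map_smul, dec, ← map_smul, dec] at h1
    simpa [hs] using h1
  obtain ⟨h1, h2⟩ := inj (fun i j => p (m (e i) (e j))) (fun u t => q (m (e u) (s t)))
    fun u v w r => by
      have := congrFun (congrArg q (key u v w)) r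
      simpa [Eqn, sub_eq_zero] using this
  have h1' : ∀ i j, p (m (e i) (e j)) = 0 := fun i j => congrFun (congrFun h1 i) j
  have h2' : ∀ i t, q (m (e i) (s t)) = 0 := fun i j => congrFun (congrFun h2 i) j
  have h3 : ∀ i t, p (m (e i) (s t)) = 0 := fun i t => funext fun l => by
    have := (inj 0 (fun u t _ => p (m (e u) (s t)) l) fun u v w r => by
      have := congrFun (congrArg p (key u v w)) l
      simpa [Eqn, sub_eq_zero, h1'] using this).2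
    exact congrFun (congrFun (congrFun this i) t) 0
  have canc : ∀ a : A, Δ • a = 0 → a = 0 := fun a h => (smul_eq_zero.1 h).resolve_left hΔ
  have h4 : ∀ i t, m (e i) (s t) = 0 := fun i t => canc _ (by rw [dec]; simp [h2', h3])
  have h5 : ∀ z t, m z (s t) = 0 := fun z t => canc _ (by
    rw [← LinearMap.smul_apply, ← map_smul, dec]
    simp [h4, hs])
  have h6 : ∀ i j z, m z (m (e i) (e j)) = 0 ∧ m (m (e i) (e j)) z = 0 := fun i j z =>
    ⟨canc _ (by rw [← map_smul, dec]; simp [h1', h5]), canc _ (by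
      rw [← LinearMap.smul_apply, ← map_smul, dec]; simp [h1', hs])⟩
  have h7 : Δ • Δ • m x y = ∑ i, ∑ j, (p x i * p y j) • m (e i) (e j) := by
    rw [← LinearMap.smul_apply Δ (m x), ← map_smul, ← map_smul, dec x, dec y]
    simp [h5, hs, Finset.smul_sum, smul_smul]
  constructor
  · refine canc _ (canc _ ?_)
    rw [← map_smul, ← map_smul, h7]
    simp [h6]
  · refine canc _ (canc _ ?_)
    rw [← LinearMap.smul_apply, ← LinearMap.smul_apply, ← map_smul, ← map_smul, h7]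
    simp [h6]

def mu {n : ℕ} (c : Fin n × Fin n × Fin n → ℂ) (u v : Fin n → ℂ) : Fin n → ℂ :=
  fun k => ∑ i : Fin n, ∑ j : Fin n, u i * v j * c (i, j, k)

theorem Po.mu {n : ℕ} {u v : (Fin n × Fin n × Fin n → ℂ) → Fin n → ℂ} (hu : ∀ i, Po fun c => u c i)
    (hv : ∀ i, Po fun c => v c i) (k : Fin n) : Po fun c => mu c (u c) (v c) k :=
  Po.sum fun i => Po.sum fun j => ((hu i).mul (hv j)).mul (Po.coord _)

theorem Po.mu0 {n : ℕ} (u v : Fin n → ℂ) (k : Fin n) :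
    Po fun c => Pool.Agent.H.MP_675cf2_al.mu c u v k :=
  Po.mu (u := fun _ => u) (v := fun _ => v) (fun _ => Po.const _) (fun _ => Po.const _) k

theorem Po.mu1 {n : ℕ} (u v w : Fin n → ℂ) (k : Fin n) :
    Po fun c => Pool.Agent.H.MP_675cf2_al.mu c u (Pool.Agent.H.MP_675cf2_al.mu c v w) k :=
  Po.mu (u := fun _ => u) (fun _ => Po.const _) (Po.mu0 v w) k

theorem Po.mu2 {n : ℕ} (u v w : Fin n → ℂ) (k : Fin n) :
    Po fun c => Pool.Agent.H.MP_675cf2_al.mu c (Pool.Agent.H.MP_675cf2_al.mu c u v) w k :=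
  Po.mu (v := fun _ => w) (Po.mu0 u v) (fun _ => Po.const _) k

def mb {n : ℕ} (c : Fin n × Fin n × Fin n → ℂ) :
    (Fin n → ℂ) →ₗ[ℂ] (Fin n → ℂ) →ₗ[ℂ] (Fin n → ℂ) :=
  LinearMap.mk₂ ℂ (mu c)
    (fun _ _ _ => by funext k; simp [mu, add_mul, Finset.sum_add_distrib])
    (fun _ _ _ => by funext k; simp [mu, Finset.mul_sum, mul_assoc])
    (fun _ _ _ => by funext k; simp [mu, mul_add, add_mul, Finset.sum_add_distrib])
    (fun _ _ _ => by funext k; simp [mu, Finset.mul_sum, mul_assoc, mul_left_comm])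

def Leib (n : ℕ) : Set (Fin n × Fin n × Fin n → ℂ) :=
  {c | ∀ u v w, mu c u (mu c v w) = mu c (mu c u v) w + mu c v (mu c u w)}

def Nil (n : ℕ) : Set (Fin n × Fin n × Fin n → ℂ) :=
  {c | ∀ x y z, mu c z (mu c x y) = 0 ∧ mu c (mu c x y) z = 0}

theorem cl_Leib (n : ℕ) : Cl (Leib n) := by
  have := cl_of (fun (i : (Fin n → ℂ) × (Fin n → ℂ) × (Fin n → ℂ) × Fin n) c =>
    mu c i.1 (mu c i.2.1 i.2.2.1) i.2.2.2 - (mu c (mu c i.1 i.2.1) i.2.2.1 i.2.2.2 +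
      mu c i.2.1 (mu c i.1 i.2.2.1) i.2.2.2)) fun i =>
    (Po.mu1 _ _ _ _).sub ((Po.mu2 _ _ _ _).add (Po.mu1 _ _ _ _))
  refine Eq.subst (Set.ext fun c => ?_) this
  simp [Leib, sub_eq_zero, funext_iff]

theorem cl_Nil (n : ℕ) : Cl (Nil n) := by
  have := cl_of (fun (i : Bool × (Fin n → ℂ) × (Fin n → ℂ) × (Fin n → ℂ) × Fin n) c =>
    if i.1 then mu c i.2.2.2.1 (mu c i.2.1 i.2.2.1) i.2.2.2.2 else
      mu c (mu c i.2.1 i.2.2.1) i.2.2.2.1 i.2.2.2.2) fun i => by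
    rcases i with ⟨_ | _, i⟩
    · exact Po.mu2 i.1 i.2.1 i.2.2.1 i.2.2.2
    · exact Po.mu1 i.2.2.1 i.1 i.2.1 i.2.2.2
  refine Eq.subst (Set.ext fun c => ?_) this
  simp only [Nil, Set.mem_setOf_eq, Prod.forall, Bool.forall_bool, funext_iff]
  exact ⟨fun h x y z => ⟨h.2 x y z, h.1 x y z⟩, fun h => ⟨fun x y z => (h x y z).2,
    fun x y z => (h x y z).1⟩⟩

abbrev CC := Fin 6 × Fin 6 × Fin 6 → ℂ

def ee (i : Fin 4) : Fin 6 → ℂ := Pi.single (Fin.castLE (by norm_num) i) 1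
def ss (c : CC) : Fin 2 → Fin 6 → ℂ := ![mu c (ee 0) (ee 0), mu c (ee 1) (ee 1)]
def De (c : CC) : ℂ := ss c 0 4 * ss c 1 5 - ss c 1 4 * ss c 0 5

def qq (c : CC) : (Fin 6 → ℂ) →ₗ[ℂ] (Fin 2 → ℂ) where
  toFun x := ![ss c 1 5 * x 4 - ss c 1 4 * x 5, ss c 0 4 * x 5 - ss c 0 5 * x 4]
  map_add' x y := by funext t; fin_cases t <;> simp <;> ring
  map_smul' a x := by funext t; fin_cases t <;> simp <;> ring

def pp (c : CC) : (Fin 6 → ℂ) →ₗ[ℂ] (Fin 4 → ℂ) where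
  toFun x l := De c * x (Fin.castLE (by norm_num) l) -
    ∑ t, qq c x t * ss c t (Fin.castLE (by norm_num) l)
  map_add' x y := by funext l; simp; ring
  map_smul' a x := by funext l; simp; ring

theorem dec (c : CC) (x : Fin 6 → ℂ) :
    De c • x = ∑ l, pp c x l • ee l + ∑ t, qq c x t • ss c t := by
  funext k
  fin_cases k <;> simp [pp, qq, De, ee, Fin.sum_univ_four, Pi.single_apply, Fin.ext_iff] <;> ring

def TT (c : CC) : ((Fin 4 × Fin 4 × Fin 4) ⊕ (Fin 4 × Fin 2 × Fin 2) → ℂ) →ₗ[ℂ]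
    (Fin 4 × Fin 4 × Fin 4 × Fin 2 → ℂ) where
  toFun x k := Eqn (fun i j => qq c (mu c (ee i) (ee j))) (fun i j l => x (.inl (i, j, l)))
    (fun i j l => x (.inr (i, j, l))) k.1 k.2.1 k.2.2.1 k.2.2.2
  map_add' x y := by
    funext k
    simp only [Eqn, Pi.add_apply, add_mul, mul_add, Finset.sum_add_distrib]
    ring
  map_smul' a x := by
    funext k
    simp only [Eqn, Pi.smul_apply, smul_eq_mul, RingHom.id_apply, Fin.sum_univ_four,
      Fin.sum_univ_two]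
    ring

theorem Po_ss (t : Fin 2) (k : Fin 6) : Po fun c => ss c t k := by
  fin_cases t <;> exact Po.mu0 _ _ _

theorem Po_q (u v : Fin 6 → ℂ) (r : Fin 2) : Po fun c => qq c (mu c u v) r := by
  fin_cases r <;> exact ((Po_ss _ _).mul (Po.mu0 _ _ _)).sub ((Po_ss _ _).mul (Po.mu0 _ _ _))

def c0 : CC := fun t => if h : t.1.1 < 4 ∧ t.2.1.1 < 4 ∧ 4 ≤ t.2.2.1 then
  nu0 ⟨t.1.1, h.1⟩ ⟨t.2.1.1, h.2.1⟩ ⟨t.2.2.1 - 4, by omega⟩ else 0

theorem mu_ee (c : CC) (i j : Fin 4) (k : Fin 6) : mu c (ee i) (ee j) k =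
    c (Fin.castLE (by norm_num) i, Fin.castLE (by norm_num) j, k) := by
  simp [mu, ee, Pi.single_apply, ite_and]

theorem c0_low (x y : Fin 6 → ℂ) (k : Fin 6) (hk : k.1 < 4) : mu c0 x y k = 0 :=
  Finset.sum_eq_zero fun i _ => Finset.sum_eq_zero fun j _ => by
    rw [c0, dif_neg (by simp only; omega), mul_zero]

theorem c0_nil : c0 ∈ Nil 6 := fun x y z => by
  constructor <;> funext k <;>
    refine Finset.sum_eq_zero fun i _ => Finset.sum_eq_zero fun j _ => ?_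
  · by_cases h : j.1 < 4
    · rw [c0_low _ _ _ h, mul_zero, zero_mul]
    · rw [c0, dif_neg (by simp only; omega), mul_zero]
  · by_cases h : i.1 < 4
    · rw [c0_low _ _ _ h, zero_mul, zero_mul]
    · rw [c0, dif_neg (by simp only; omega), mul_zero]

theorem c0_4 (i j : Fin 4) : mu c0 (ee i) (ee j) 4 = nu0 i j 0 := by
  rw [mu_ee, c0, dif_pos ⟨i.2, j.2, le_refl 4⟩]; rfl
theorem c0_5 (i j : Fin 4) : mu c0 (ee i) (ee j) 5 = nu0 i j 1 := by
  rw [mu_ee, c0, dif_pos ⟨i.2, j.2, Nat.le_succ 4⟩]; rfl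

theorem q0 : (fun i j => qq c0 (mu c0 (ee i) (ee j))) = nu0 := by
  funext i j r
  fin_cases r <;> simp [qq, ss, c0_4, c0_5, n000, n001, n110, n111]

theorem final : ∃ Z : Set CC, Irr Z ∧ Z ⊆ Leib 6 ∧
    (∀ Z', Irr Z' → Z ⊆ Z' → Z' ⊆ Leib 6 → Z' = Z) ∧ Z ⊆ Nil 6 := by
  obtain ⟨Z, h1, h2, h3, h4⟩ := comp (cl_Leib 6) (c0 := c0) fun u v w => by
    rw [(c0_nil v w u).1, (c0_nil u v w).2, (c0_nil u w v).1, add_zero]
  obtain ⟨D, d1, d2, d3⟩ := gen_inj TT (fun x k =>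
    ((Po.sum fun l => (Po.const _).mul (Po_q _ _ _)).add
      (Po.sum fun l => (Po_q _ _ _).mul (Po.const _))).sub
    ((Po.sum fun l => (Po.const _).mul (Po_q _ _ _)).add
      ((Po.sum fun l => (Po.const _).mul (Po_q _ _ _)).add
        (Po.sum fun l => (Po_q _ _ _).mul (Po.const _))))) c0 fun x hx => by
    obtain ⟨a, b⟩ := inj0 (β := fun i j l => x (.inl (i, j, l))) (ρ := fun i j l => x (.inr (i, j, l)))
      fun u v w r => q0 ▸ congrFun hx (u, v, w, r)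
    funext i
    rcases i with ⟨i, j, l⟩ | ⟨i, j, l⟩
    · exact congrFun (congrFun (congrFun a i) j) l
    · exact congrFun (congrFun (congrFun b i) j) l
  have hA := cl_of (fun (_ : Unit) c => D c * De c) fun _ => d1.mul
    (((Po_ss _ _).mul (Po_ss _ _)).sub ((Po_ss _ _).mul (Po_ss _ _)))
  refine ⟨Z, h1, h3, h4, (h1.2.2 _ _ hA (cl_Nil 6) fun c hc => ?_).resolve_left fun h => ?_⟩
  · refine or_iff_not_imp_left.2 fun h => ?_
    have h5 : D c * De c ≠ 0 := fun e => h fun _ => e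
    have sq : ∀ a x, mu c (mu c a a) x = 0 := fun a x => by simpa using h3 hc a a x
    refine core (mb c) (h3 hc) ee (ss c) (fun t x => ?_) (pp c) (qq c) (right_ne_zero_of_mul h5)
      (dec c) fun β ρ H => ?_
    · fin_cases t <;> exact sq _ x
    · have := d3 c (left_ne_zero_of_mul h5) (Sum.elim (fun i => β i.1 i.2.1 i.2.2)
        fun i => ρ i.1 i.2.1 i.2.2) (funext fun k => H _ _ _ _)
      exact ⟨by funext i j l; exact congrFun this (.inl (i, j, l)),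
        by funext i j l; exact congrFun this (.inr (i, j, l))⟩
  · have h5 : D c0 * De c0 = 0 := h h2 ()
    simp [De, ss, c0_4, c0_5, n000, n001, n110, n111, d2] at h5

end Pool.Agent.H.MP_675cf2_al
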